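import Pool.Agent.Helper15.BB.St

/-!
Project BB, module K: two disjoint pairs of equal coordinates force all coordinates to be equal.
-/

set_option autoImplicit false

namespace Pool.Agent.Helper84.BB

open Pool.Agent.Helper22.FL Pool.Agent.Helper22.CS Pool.Agent.Helper15.BB

private theorem two_pow_ne {i j k l : ℕ} (hij : i ≠ j) (hik : i ≠ k) (hil : i ≠ l) (hkl : k ≠ l) :
    (2 : ℚ) ^ i + 2 ^ j ≠ 2 ^ k + 2 ^ l := by
  intro h
  have h1 : 2 ^ i + 2 ^ j = 2 ^ k + 2 ^ l := by exact_mod_cast h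
  have h2 : ({i, j} : Finset ℕ) = {k, l} := by
    apply Finset.geomSum_injective (n := 2) le_rfl
    simp only [Finset.sum_pair hij, Finset.sum_pair hkl]
    exact h1
  have h3 : i ∈ ({k, l} : Finset ℕ) := by
    rw [← h2]
    simp
  simp only [Finset.mem_insert, Finset.mem_singleton] at h3
  omega

private theorem closed_form {n : ℕ} (x : Fin n → ℕ) (hx : InV x) (hn : 3 ≤ n) :
    ∃ s t r : ℚ, ∀ (a : ℕ) (h : a < n), (x ⟨a, h⟩ : ℚ) = s + t * 2 ^ a + r * 4 ^ a := by
  let x0 : ℚ := x ⟨0, by omega⟩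
  let x1 : ℚ := x ⟨1, by omega⟩
  let x2 : ℚ := x ⟨2, by omega⟩
  let r : ℚ := (x2 - 3 * x1 + 2 * x0) / 6
  let t : ℚ := x1 - x0 - 3 * r
  refine ⟨x0 - t - r, t, r, ?_⟩
  intro a
  induction a using Nat.strong_induction_on with
  | _ a ih =>
    intro h
    match a, ih, h with
    | 0, _, h =>
      have e : (x ⟨0, h⟩ : ℚ) = x0 := rfl
      rw [e]
      simp only [t, r]
      ring
    | 1, _, h =>
      have e : (x ⟨1, h⟩ : ℚ) = x1 := rfl
      rw [e]
      simp only [t, r]
      ring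
    | 2, _, h =>
      have e : (x ⟨2, h⟩ : ℚ) = x2 := rfl
      rw [e]
      simp only [t, r]
      ring
    | a + 3, ih, h =>
      have e := hx a h
      have e' : (x ⟨a + 3, h⟩ : ℚ) + 14 * x ⟨a + 1, by omega⟩ =
          7 * x ⟨a + 2, by omega⟩ + 8 * x ⟨a, by omega⟩ := by exact_mod_cast e
      have i0 := ih a (by omega) (by omega)
      have i1 := ih (a + 1) (by omega) (by omega)
      have i2 := ih (a + 2) (by omega) (by omega)
      rw [i0, i1, i2] at e'
      have e3 : (x ⟨a + 3, h⟩ : ℚ) = 7 * (x0 - t - r + t * 2 ^ (a + 2) + r * 4 ^ (a + 2)) +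
          8 * (x0 - t - r + t * 2 ^ a + r * 4 ^ a) -
          14 * (x0 - t - r + t * 2 ^ (a + 1) + r * 4 ^ (a + 1)) := by linarith
      rw [e3]
      ring

theorem stk : StK := by
  intro n x hx i j k l hd hij hkl
  obtain ⟨d1, d2, d3, d4, d5, d6⟩ := hd
  have v1 : i.val ≠ j.val := fun h => d1 (Fin.ext h)
  have v2 : i.val ≠ k.val := fun h => d2 (Fin.ext h)
  have v3 : i.val ≠ l.val := fun h => d3 (Fin.ext h)
  have v4 : j.val ≠ k.val := fun h => d4 (Fin.ext h)
  have v5 : j.val ≠ l.val := fun h => d5 (Fin.ext h)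
  have v6 : k.val ≠ l.val := fun h => d6 (Fin.ext h)
  have hn : 3 ≤ n := by
    have := i.isLt
    have := j.isLt
    have := k.isLt
    have := l.isLt
    omega
  obtain ⟨s, t, r, hf⟩ := closed_form x hx hn
  have key : ∀ p q : Fin n, p.val ≠ q.val → x p = x q →
      t + r * (2 ^ p.val + 2 ^ q.val) = 0 := by
    intro p q hpq h
    have hp := hf p.val p.isLt
    have hq := hf q.val q.isLt
    have h' : (x p : ℚ) = x q := by exact_mod_cast h
    have e1 : (x p : ℚ) = s + t * 2 ^ p.val + r * 4 ^ p.val := hp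
    have e2 : (x q : ℚ) = s + t * 2 ^ q.val + r * 4 ^ q.val := hq
    rw [e1, e2] at h'
    have f1 : (4 : ℚ) ^ p.val = 2 ^ p.val * 2 ^ p.val := by
      rw [← mul_pow]
      norm_num
    have f2 : (4 : ℚ) ^ q.val = 2 ^ q.val * 2 ^ q.val := by
      rw [← mul_pow]
      norm_num
    rw [f1, f2] at h'
    have hne : (2 : ℚ) ^ p.val - 2 ^ q.val ≠ 0 := by
      intro h0
      have h1 : (2 : ℚ) ^ p.val = 2 ^ q.val := by linarith
      have h2 : (2 : ℕ) ^ p.val = 2 ^ q.val := by exact_mod_cast h1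
      exact hpq (Nat.pow_right_injective le_rfl h2)
    have h3 : ((2 : ℚ) ^ p.val - 2 ^ q.val) * (t + r * (2 ^ p.val + 2 ^ q.val)) = 0 := by
      linear_combination h'
    exact (mul_eq_zero.1 h3).resolve_left hne
  have k1 := key i j v1 hij
  have k2 := key k l v6 hkl
  have hr : r = 0 := by
    have h4 : r * ((2 ^ i.val + 2 ^ j.val) - (2 ^ k.val + 2 ^ l.val)) = 0 := by
      linear_combination k1 - k2
    rcases mul_eq_zero.1 h4 with h5 | h5
    · exact h5
    · exact absurd (sub_eq_zero.1 h5) (two_pow_ne v1 v2 v3 v6)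
  have ht : t = 0 := by
    rw [hr] at k1
    linarith
  intro p q
  have hp : (x p : ℚ) = s + t * 2 ^ p.val + r * 4 ^ p.val := hf p.val p.isLt
  have hq : (x q : ℚ) = s + t * 2 ^ q.val + r * 4 ^ q.val := hf q.val q.isLt
  rw [hr, ht] at hp hq
  have : (x p : ℚ) = x q := by rw [hp, hq]; ring
  exact_mod_cast this

end Pool.Agent.Helper84.BB
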